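import Mathlib

set_option autoImplicit false

/-!
# MP_c457a4_an, Q1: ccs Delta-points in `ℓ_∞`-sums
-/

namespace Pool.Agent.Results.MP_c457a4_an.SumsOfCcsDelta

variable (𝕜 : Type*) [RCLike 𝕜]

/-- The slice `S(f, α)` of the closed unit ball. -/
def slice {𝕜 : Type*} [RCLike 𝕜] {X : Type*} [NormedAddCommGroup X] [NormedSpace 𝕜 X]
    (f : X →L[𝕜] 𝕜) (α : ℝ) : Set X := {z | ‖z‖ ≤ 1 ∧ 1 - α < RCLike.re (f z)}

/-- `C` is a convex combination of slices of the closed unit ball of `X`. -/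
def IsCcs {X : Type*} [NormedAddCommGroup X] [NormedSpace 𝕜 X] (C : Set X) : Prop :=
  ∃ (n : ℕ) (l : Fin n → ℝ) (f : Fin n → (X →L[𝕜] 𝕜)) (α : Fin n → ℝ),
    1 ≤ n ∧ (∀ i, 0 ≤ l i) ∧ ∑ i, l i = 1 ∧ (∀ i, ‖f i‖ = 1) ∧ (∀ i, 0 < α i) ∧
    C = {x | ∃ z : Fin n → X, (∀ i, z i ∈ slice (f i) (α i)) ∧ x = ∑ i, ((l i : ℝ) : 𝕜) • z i}

/-- `x` is a ccs `Δ`-point: `‖x‖ = 1` and `sup_{z ∈ C} ‖x - z‖ = 2` for every convex combination of
slices `C` of the unit ball containing `x`. -/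
def IsCcsDelta {X : Type*} [NormedAddCommGroup X] [NormedSpace 𝕜 X] (x : X) : Prop :=
  ‖x‖ = 1 ∧ ∀ C : Set X, IsCcs 𝕜 C → x ∈ C → sSup {r : ℝ | ∃ z ∈ C, r = ‖x - z‖} = 2

variable {𝕜}

lemma ccs_norm_le {X : Type*} [NormedAddCommGroup X] [NormedSpace 𝕜 X] {C : Set X}
    (hC : IsCcs 𝕜 C) {x : X} (hx : x ∈ C) : ‖x‖ ≤ 1 := by
  obtain ⟨n, l, f, α, -, hl, hs, -, -, rfl⟩ := hC
  obtain ⟨z, hz, rfl⟩ := hx
  refine (norm_sum_le _ _).trans ?_
  rw [← hs]
  apply Finset.sum_le_sum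
  intro i _
  rw [norm_smul, RCLike.norm_ofReal, abs_of_nonneg (hl i)]
  have := (hz i).1
  nlinarith [hl i]

/-- One coordinate suffices. -/
lemma one_side {X Y : Type*} [NormedAddCommGroup X] [NormedSpace 𝕜 X] [NormedAddCommGroup Y]
    [NormedSpace 𝕜 Y] (x : X) (hx : IsCcsDelta 𝕜 x) (y : Y) (hy : ‖y‖ ≤ 1) :
    IsCcsDelta 𝕜 ((x, y) : X × Y) := by
  classical
  obtain ⟨hxn, hxd⟩ := hx
  refine ⟨?_, fun C hC hxC => ?_⟩
  · rw [Prod.norm_def]; simp [hxn, hy]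
  have hn : ‖((x, y) : X × Y)‖ = 1 := by rw [Prod.norm_def]; simp [hxn, hy]
  have hbdd : ∀ r ∈ {r : ℝ | ∃ z ∈ C, r = ‖((x, y) : X × Y) - z‖}, r ≤ 2 := by
    rintro r ⟨z, hz, rfl⟩
    refine (norm_sub_le _ _).trans ?_
    have := ccs_norm_le hC hz
    linarith
  obtain ⟨n, l, F, α, hn1, hl, hs, hF, hα, rfl⟩ := hC
  obtain ⟨z, hz, hxz⟩ := hxC
  -- a norm-one functional on `X`
  have hx0 : ‖x‖ ≠ 0 := by rw [hxn]; norm_num
  obtain ⟨f₀, hf₀, hf₀x⟩ := exists_dual_vector 𝕜 x hx0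
  -- restrictions
  let inl : X →L[𝕜] X × Y := ContinuousLinearMap.inl 𝕜 X Y
  let f : Fin n → (X →L[𝕜] 𝕜) := fun i => (F i).comp inl
  have hf : ∀ i u, f i u = F i (u, 0) := fun i u => rfl
  -- sections of the slices are slices
  have hsec : ∀ i, ∃ (g : X →L[𝕜] 𝕜) (β : ℝ), ‖g‖ = 1 ∧ 0 < β ∧ (z i).1 ∈ slice g β ∧
      ∀ u ∈ slice g β, ((u, (z i).2) : X × Y) ∈ slice (F i) (α i) := by
    intro i
    have hzi := hz i
    have hz1 : ‖(z i).1‖ ≤ 1 := (norm_fst_le (z i)).trans hzi.1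
    have hz2 : ‖(z i).2‖ ≤ 1 := (norm_snd_le (z i)).trans hzi.1
    have hdec : ∀ u : X, F i (u, (z i).2) = f i u + F i (0, (z i).2) := by
      intro u
      rw [hf, ← map_add]
      congr 1
      ext <;> simp
    have hzi2 : 1 - α i < RCLike.re (f i (z i).1) + RCLike.re (F i (0, (z i).2)) := by
      have := hzi.2
      have e : z i = ((z i).1, (z i).2) := rfl
      rw [e, hdec, map_add] at this
      exact this
    by_cases h0 : ‖f i‖ = 0
    · refine ⟨f₀, 3, hf₀, by norm_num, ⟨hz1, ?_⟩, ?_⟩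
      · have h1 : |RCLike.re (f₀ (z i).1)| ≤ 1 := by
          refine (RCLike.abs_re_le_norm _).trans ?_
          have := f₀.le_opNorm (z i).1
          rw [hf₀, one_mul] at this
          exact this.trans hz1
        have := (abs_le.1 h1).1
        linarith
      · intro u hu
        refine ⟨?_, ?_⟩
        · rw [Prod.norm_def]; exact max_le hu.1 hz2
        · rw [hdec, map_add]
          have hz0 : f i = 0 := norm_eq_zero.1 h0
          rw [hz0] at hzi2 ⊢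
          simpa using hzi2
    · have hpos : 0 < ‖f i‖ := lt_of_le_of_ne (norm_nonneg _) (Ne.symm h0)
      let τ : ℝ := 1 - α i - RCLike.re (F i (0, (z i).2))
      have hτ : τ < RCLike.re (f i (z i).1) := by simp only [τ]; linarith
      have hre : RCLike.re (f i (z i).1) ≤ ‖f i‖ := by
        refine (RCLike.re_le_norm _).trans (((f i).le_opNorm _).trans ?_)
        nlinarith
      have hga : ∀ u, RCLike.re (((((‖f i‖⁻¹ : ℝ)) : 𝕜) • f i) u) = ‖f i‖⁻¹ * RCLike.re (f i u) := by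
        intro u
        rw [smul_apply, smul_eq_mul, RCLike.re_ofReal_mul]
      refine ⟨(((‖f i‖⁻¹ : ℝ)) : 𝕜) • f i, 1 - τ / ‖f i‖, ?_, ?_, ⟨hz1, ?_⟩, ?_⟩
      · rw [norm_smul, RCLike.norm_ofReal, abs_of_pos (inv_pos.2 hpos)]
        exact inv_mul_cancel₀ hpos.ne'
      · have : τ / ‖f i‖ < 1 := by rw [div_lt_one hpos]; linarith
        linarith
      · rw [hga, inv_mul_eq_div]
        have := div_lt_div_of_pos_right hτ hpos
        linarith
      · intro u hu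
        refine ⟨?_, ?_⟩
        · rw [Prod.norm_def]; exact max_le hu.1 hz2
        · have h2 := hu.2
          rw [hga, inv_mul_eq_div] at h2
          have h3 : τ / ‖f i‖ < RCLike.re (f i u) / ‖f i‖ := by linarith
          have h4 : τ < RCLike.re (f i u) := by
            rwa [div_lt_div_iff_of_pos_right hpos] at h3
          rw [hdec, map_add]
          simp only [τ] at h4
          linarith
  choose g β hg hβ hgz hgu using hsec
  -- the convex combination of slices of `B_X`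
  let C' : Set X := {x | ∃ w : Fin n → X, (∀ i, w i ∈ slice (g i) (β i)) ∧
    x = ∑ i, ((l i : ℝ) : 𝕜) • w i}
  have hC' : IsCcs 𝕜 C' := ⟨n, l, g, β, hn1, hl, hs, hg, hβ, rfl⟩
  have hx1 : x = ∑ i, ((l i : ℝ) : 𝕜) • (z i).1 := by
    have h := congrArg Prod.fst hxz
    rw [Prod.fst_sum] at h
    exact h
  have hy1 : y = ∑ i, ((l i : ℝ) : 𝕜) • (z i).2 := by
    have h := congrArg Prod.snd hxz
    rw [Prod.snd_sum] at h
    exact h
  have hxC' : x ∈ C' := ⟨fun i => (z i).1, hgz, hx1⟩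
  have hsup := hxd C' hC' hxC'
  have hne' : Set.Nonempty {r : ℝ | ∃ w ∈ C', r = ‖x - w‖} := ⟨_, x, hxC', rfl⟩
  have hne : Set.Nonempty {r : ℝ | ∃ w ∈ {x | ∃ z : Fin n → X × Y,
      (∀ i, z i ∈ slice (F i) (α i)) ∧ x = ∑ i, ((l i : ℝ) : 𝕜) • z i}, r = ‖((x, y) : X × Y) - w‖} :=
    ⟨_, (x, y), ⟨z, hz, hxz⟩, rfl⟩
  apply le_antisymm (csSup_le hne hbdd)
  refine le_of_forall_lt fun t ht => ?_
  rw [← hsup] at ht
  obtain ⟨s, ⟨w, ⟨v, hv, rfl⟩, rfl⟩, hlt⟩ := exists_lt_of_lt_csSup hne' ht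
  refine lt_of_lt_of_le hlt (le_csSup_of_le ⟨2, hbdd⟩
    ⟨(∑ i, ((l i : ℝ) : 𝕜) • v i, y), ⟨fun i => (v i, (z i).2), fun i => hgu i _ (hv i), ?_⟩, rfl⟩ ?_)
  · ext
    · rw [Prod.fst_sum]; rfl
    · rw [Prod.snd_sum]; exact hy1
  · have e : ((x, y) : X × Y) - (∑ i, ((l i : ℝ) : 𝕜) • v i, y)
        = (x - ∑ i, ((l i : ℝ) : 𝕜) • v i, 0) := by
      ext <;> simp
    rw [e, Prod.norm_def]
    exact le_max_left _ _

/-- Isometric isomorphisms preserve ccs `Δ`-points. -/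
lemma map_isometry {E F : Type*} [NormedAddCommGroup E] [NormedSpace 𝕜 E] [NormedAddCommGroup F]
    [NormedSpace 𝕜 F] (e : E ≃ₗᵢ[𝕜] F) (x : E) (hx : IsCcsDelta 𝕜 x) : IsCcsDelta 𝕜 (e x) := by
  refine ⟨by rw [e.norm_map]; exact hx.1, fun C hC hxC => ?_⟩
  have hC' : IsCcs 𝕜 {y | e y ∈ C} := by
    obtain ⟨n, l, f, α, hn1, hl, hs, hf, hα, rfl⟩ := hC
    refine ⟨n, l, fun i => (f i).comp (e : E →L[𝕜] F), α, hn1, hl, hs, fun i => ?_, hα, ?_⟩
    · rw [ContinuousLinearMap.opNorm_comp_linearIsometryEquiv]; exact hf i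
    · ext y
      simp only [Set.mem_ofPred_eq, slice]
      constructor
      · rintro ⟨z, hz, hy⟩
        refine ⟨fun i => e.symm (z i), fun i => ⟨?_, ?_⟩, ?_⟩
        · rw [e.symm.norm_map]; exact (hz i).1
        · simpa using (hz i).2
        · apply e.injective
          rw [hy, map_sum]
          exact Finset.sum_congr rfl fun i _ => by rw [map_smul, e.apply_symm_apply]
      · rintro ⟨z, hz, rfl⟩
        refine ⟨fun i => e (z i), fun i => ⟨?_, ?_⟩, ?_⟩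
        · rw [e.norm_map]; exact (hz i).1
        · simpa using (hz i).2
        · rw [map_sum]
          exact Finset.sum_congr rfl fun i _ => by rw [map_smul]
  have h := hx.2 _ hC' hxC
  rw [← h]
  congr 1
  ext r
  simp only [Set.mem_ofPred_eq]
  constructor
  · rintro ⟨z, hz, rfl⟩
    refine ⟨e.symm z, by rwa [e.apply_symm_apply], ?_⟩
    rw [← e.norm_map (x - e.symm z), map_sub, e.apply_symm_apply]
  · rintro ⟨z, hz, rfl⟩
    refine ⟨e z, hz, ?_⟩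
    rw [← map_sub, e.norm_map]

/-- The flip of the two factors. -/
def flip (𝕜 X Y : Type*) [RCLike 𝕜] [NormedAddCommGroup X] [NormedSpace 𝕜 X]
    [NormedAddCommGroup Y] [NormedSpace 𝕜 Y] : (Y × X) ≃ₗᵢ[𝕜] (X × Y) where
  toLinearEquiv := LinearEquiv.prodComm 𝕜 Y X
  norm_map' := by
    rintro ⟨y, x⟩
    change ‖((x, y) : X × Y)‖ = ‖((y, x) : Y × X)‖
    rw [Prod.norm_def, Prod.norm_def]
    exact max_comm _ _

/-- **Positive answer to Q1**: in the `ℓ_∞`-sum (the product with the maximum norm), `(a x, b y)` is a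
ccs `Δ`-point whenever `x`, `y` are ccs `Δ`-points, `a, b ∈ [0,1]` and `max a b = 1`. -/
theorem result (𝕜 : Type*) [RCLike 𝕜] (X Y : Type*) [NormedAddCommGroup X] [NormedSpace 𝕜 X]
    [CompleteSpace X] [NormedAddCommGroup Y] [NormedSpace 𝕜 Y] [CompleteSpace Y]
    (x : X) (y : Y) (hx : IsCcsDelta 𝕜 x) (hy : IsCcsDelta 𝕜 y) (a b : ℝ)
    (ha0 : 0 ≤ a) (ha1 : a ≤ 1) (hb0 : 0 ≤ b) (hb1 : b ≤ 1) (hab : max a b = 1) :
    IsCcsDelta 𝕜 (((a : 𝕜) • x, (b : 𝕜) • y) : X × Y) := by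
  have hna : ‖(a : 𝕜) • x‖ ≤ 1 := by
    rw [norm_smul, RCLike.norm_ofReal, abs_of_nonneg ha0, hx.1, mul_one]; exact ha1
  have hnb : ‖(b : 𝕜) • y‖ ≤ 1 := by
    rw [norm_smul, RCLike.norm_ofReal, abs_of_nonneg hb0, hy.1, mul_one]; exact hb1
  rcases max_choice a b with h | h
  · rw [h] at hab
    subst hab
    rw [RCLike.ofReal_one, one_smul]
    exact one_side x hx _ hnb
  · rw [h] at hab
    subst hab
    rw [RCLike.ofReal_one, one_smul]
    exact map_isometry (flip 𝕜 X Y) (y, (a : 𝕜) • x) (one_side y hy _ hna)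

end Pool.Agent.Results.MP_c457a4_an.SumsOfCcsDelta
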